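import Mathlib

/-!
An increasing set function on the algebra of all subsets of a countable set which is not a
difference of two bounded submodular set functions.
-/

set_option autoImplicit false

namespace Pool.Agent.Results.MP_2db6a9_co.ThresholdTower

open Finset

variable {J : Type}

/-- `φ` is increasing on the algebra `B`. -/
def IncreasingOn (B : Set (Set J)) (φ : Set J → ℝ) : Prop :=
  ∀ X ∈ B, ∀ Y ∈ B, X ⊆ Y → φ X ≤ φ Y

/-- `φ` is bounded on the algebra `B`. -/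
def BoundedOn (B : Set (Set J)) (φ : Set J → ℝ) : Prop := ∃ b : ℝ, ∀ X ∈ B, |φ X| ≤ b

/-- `φ` is submodular on the algebra `B`. -/
def SubmodularOn (B : Set (Set J)) (φ : Set J → ℝ) : Prop :=
  ∀ X ∈ B, ∀ Y ∈ B, φ (X ∩ Y) + φ (X ∪ Y) ≤ φ X + φ Y

/-! ### symmetrization -/

section sym

variable {N : ℕ}

/-- the points of rank less than `k` -/
def F (σ : Equiv.Perm (Fin N)) (k : ℕ) : Finset (Fin N) := univ.filter fun j => (σ j : ℕ) < k

theorem mem_F {σ : Equiv.Perm (Fin N)} {k : ℕ} {j : Fin N} : j ∈ F σ k ↔ (σ j : ℕ) < k := by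
  simp [F]

theorem card_F (σ : Equiv.Perm (Fin N)) {k : ℕ} (hk : k ≤ N) : (F σ k).card = k := by
  have h1 : (F σ k).map σ.toEmbedding = univ.filter fun j : Fin N => (j : ℕ) < k := by
    ext j
    simp only [mem_map_equiv, mem_F, mem_filter, mem_univ, true_and, Equiv.apply_symm_apply]
  rw [← card_map σ.toEmbedding, h1]
  have h2 : (univ.filter fun j : Fin N => (j : ℕ) < k).map Fin.valEmbedding = range k := by
    ext i
    simp only [mem_map, mem_filter, mem_univ, true_and, Fin.valEmbedding_apply, mem_range]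
    constructor
    · rintro ⟨j, hj, rfl⟩; exact hj
    · intro hi; exact ⟨⟨i, by omega⟩, hi, rfl⟩
  rw [← card_map Fin.valEmbedding, h2, card_range]

/-- the symmetrization of a submodular function is concave -/
theorem concave (ψ : Finset (Fin N) → ℝ) (h : ∀ X Y, ψ (X ∩ Y) + ψ (X ∪ Y) ≤ ψ X + ψ Y) (k : ℕ)
    (hk : k + 2 ≤ N) : (∑ σ, ψ (F σ k)) + ∑ σ, ψ (F σ (k + 2)) ≤ 2 * ∑ σ, ψ (F σ (k + 1)) := by
  set a : Fin N := ⟨k, by omega⟩ with ha
  set b : Fin N := ⟨k + 1, by omega⟩ with hb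
  have h1 : ∑ σ, ψ (F (Equiv.swap a b * σ) (k + 1)) = ∑ σ, ψ (F σ (k + 1)) :=
    Equiv.sum_comp (Equiv.mulLeft (Equiv.swap a b)) fun σ => ψ (F σ (k + 1))
  have hval : ∀ j : Fin N, ((Equiv.swap a b j : Fin N) : ℕ) < k + 1 ↔ (j : ℕ) < k ∨ (j : ℕ) = k + 1 := by
    intro j
    rcases eq_or_ne j a with rfl | hja
    · rw [Equiv.swap_apply_left, hb, ha]; simp
    · rcases eq_or_ne j b with rfl | hjb
      · rw [Equiv.swap_apply_right, hb, ha]; simp
      · rw [Equiv.swap_apply_of_ne_of_ne hja hjb]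
        have h2 : (j : ℕ) ≠ k := fun h => hja (Fin.ext h)
        have h3 : (j : ℕ) ≠ k + 1 := fun h => hjb (Fin.ext h)
        omega
  have h2 : ∀ σ : Equiv.Perm (Fin N), ψ (F σ k) + ψ (F σ (k + 2)) ≤
      ψ (F σ (k + 1)) + ψ (F (Equiv.swap a b * σ) (k + 1)) := by
    intro σ
    have h3 : F σ (k + 1) ∩ F (Equiv.swap a b * σ) (k + 1) = F σ k := by
      ext j
      rw [mem_inter, mem_F, mem_F, mem_F, Equiv.Perm.mul_apply, hval]
      omega
    have h4 : F σ (k + 1) ∪ F (Equiv.swap a b * σ) (k + 1) = F σ (k + 2) := by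
      ext j
      rw [mem_union, mem_F, mem_F, mem_F, Equiv.Perm.mul_apply, hval]
      omega
    have h5 := h (F σ (k + 1)) (F (Equiv.swap a b * σ) (k + 1))
    rwa [h3, h4] at h5
  calc (∑ σ, ψ (F σ k)) + ∑ σ, ψ (F σ (k + 2)) = ∑ σ, (ψ (F σ k) + ψ (F σ (k + 2))) := by
        rw [sum_add_distrib]
    _ ≤ ∑ σ, (ψ (F σ (k + 1)) + ψ (F (Equiv.swap a b * σ) (k + 1))) := sum_le_sum fun σ _ => h2 σ
    _ = 2 * ∑ σ, ψ (F σ (k + 1)) := by rw [sum_add_distrib, h1]; ring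

end sym

/-! ### concave sequences -/

theorem conc_left (u : ℕ → ℝ) (δ : ℝ) (m : ℕ)
    (h : ∀ k, k + 2 ≤ m + 1 → u k + u (k + 2) ≤ 2 * u (k + 1)) (hδ : δ ≤ u (m + 1) - u m) :
    (m + 1) * δ ≤ u (m + 1) - u 0 := by
  induction m with
  | zero => simpa using hδ
  | succ m ih =>
    have h1 := h m le_rfl
    have h2 := ih (fun k hk => h k (by omega)) (by linarith)
    push_cast
    linarith

theorem conc_right (u : ℕ → ℝ) (δ : ℝ) (s N : ℕ)
    (h : ∀ k, k + 2 ≤ N → u k + u (k + 2) ≤ 2 * u (k + 1)) (hδ : u (s + 1) - u s ≤ -δ) (r : ℕ)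
    (hr : s + r + 1 ≤ N) : u (s + r + 1) - u (s + r) ≤ -δ ∧ u (s + r + 1) - u s ≤ -((r + 1) * δ) := by
  induction r with
  | zero => simpa using hδ
  | succ r ih =>
    obtain ⟨h1, h2⟩ := ih (by omega)
    have h3 := h (s + r) (by omega)
    have h4 : s + (r + 1) + 1 = s + r + 2 := by ring
    have h5 : s + (r + 1) = s + r + 1 := by ring
    rw [h4, h5]
    push_cast
    constructor <;> linarith

/-- quantitative form: a threshold function is not a difference of submodular functions with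
small bounds -/
theorem threshold_bound (m : ℕ) (hm : 2 ≤ m) (c b : ℝ) (_hc : 0 < c)
    (ψ₁ ψ₂ : Finset (Fin (2 * m)) → ℝ)
    (h₁ : ∀ X Y, ψ₁ (X ∩ Y) + ψ₁ (X ∪ Y) ≤ ψ₁ X + ψ₁ Y)
    (h₂ : ∀ X Y, ψ₂ (X ∩ Y) + ψ₂ (X ∪ Y) ≤ ψ₂ X + ψ₂ Y)
    (hb : ∀ X, |ψ₂ X| ≤ b)
    (hd : ∀ X, ψ₁ X - ψ₂ X = if m ≤ X.card then c else 0) : (m - 1) * c ≤ 4 * b := by
  obtain ⟨M, hM⟩ : ∃ M : ℝ, M = (Fintype.card (Equiv.Perm (Fin (2 * m))) : ℝ) := ⟨_, rfl⟩
  have hM0 : 0 < M := by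
    rw [hM]; exact_mod_cast Fintype.card_pos
  obtain ⟨U₁, hU₁⟩ : ∃ U₁ : ℕ → ℝ, U₁ = fun k => ∑ σ, ψ₁ (F σ k) := ⟨_, rfl⟩
  obtain ⟨U₂, hU₂⟩ : ∃ U₂ : ℕ → ℝ, U₂ = fun k => ∑ σ, ψ₂ (F σ k) := ⟨_, rfl⟩
  have c1 : ∀ k, k + 2 ≤ 2 * m → U₁ k + U₁ (k + 2) ≤ 2 * U₁ (k + 1) := by
    intro k hk; rw [hU₁]; exact concave ψ₁ h₁ k hk
  have c2 : ∀ k, k + 2 ≤ 2 * m → U₂ k + U₂ (k + 2) ≤ 2 * U₂ (k + 1) := by
    intro k hk; rw [hU₂]; exact concave ψ₂ h₂ k hk
  have hbd : ∀ k, |U₂ k| ≤ M * b := by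
    intro k
    rw [hU₂, hM]
    calc |∑ σ, ψ₂ (F σ k)| ≤ ∑ σ, |ψ₂ (F σ k)| := abs_sum_le_sum_abs _ _
      _ ≤ ∑ _σ : Equiv.Perm (Fin (2 * m)), b := sum_le_sum fun σ _ => hb _
      _ = _ := by rw [sum_const, nsmul_eq_mul]; rfl
  have hdiff : ∀ k, k ≤ 2 * m → U₁ k - U₂ k = M * (if m ≤ k then c else 0) := by
    intro k hk
    rw [hU₁, hU₂, hM]
    show ∑ σ, ψ₁ (F σ k) - ∑ σ, ψ₂ (F σ k) = _
    rw [← sum_sub_distrib]
    have : ∀ σ : Equiv.Perm (Fin (2 * m)), ψ₁ (F σ k) - ψ₂ (F σ k) = if m ≤ k then c else 0 := by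
      intro σ; rw [hd, card_F σ hk]
    simp only [this, sum_const, nsmul_eq_mul]
    rfl
  obtain ⟨s, rfl⟩ : ∃ s, m = s + 2 := ⟨m - 2, by omega⟩
  have e0 := hdiff s (by omega)
  have e1 := hdiff (s + 1) (by omega)
  have e2 := hdiff (s + 2) (by omega)
  rw [if_neg (by omega)] at e0 e1
  rw [if_pos (by omega)] at e2
  have hkey := c1 s (by omega)
  have hdrop : (U₂ (s + 2) - U₂ (s + 1)) + M * c ≤ U₂ (s + 1) - U₂ s := by linarith
  rcases le_or_gt (M * c / 2) (U₂ (s + 1) - U₂ s) with h | h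
  · have h3 := conc_left U₂ (M * c / 2) s (fun k hk => c2 k (by omega)) h
    have h4 := abs_le.1 (hbd (s + 1))
    have h5 := abs_le.1 (hbd 0)
    have h6 : M * ((s + 1) * c) ≤ M * (4 * b) := by linarith
    have h7 := le_of_mul_le_mul_left h6 hM0
    push_cast
    linarith
  · have h3 := (conc_right U₂ (M * c / 2) (s + 1) (2 * (s + 2)) c2 (by
      have : s + 1 + 1 = s + 2 := rfl
      rw [this]; linarith) s (by omega)).2
    have h4 := abs_le.1 (hbd (s + 1))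
    have h5 := abs_le.1 (hbd (s + 1 + s + 1))
    have h6 : M * ((s + 1) * c) ≤ M * (4 * b) := by linarith
    have h7 := le_of_mul_le_mul_left h6 hM0
    push_cast
    linarith

/-! ### the tower -/

open Classical in
/-- the number of points of `X` in the `n`-th block `{n} × {0, …, 2 * 4 ^ n - 1}` -/
noncomputable def cnt (n : ℕ) (X : Set (ℕ × ℕ)) : ℕ :=
  ((range (2 * 4 ^ n)).filter fun i => (n, i) ∈ X).card

/-- the set function -/
noncomputable def phi (X : Set (ℕ × ℕ)) : ℝ :=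
  ∑' n : ℕ, if 4 ^ n ≤ cnt n X then (1 / 2 : ℝ) ^ n else 0

theorem summable_phi (X : Set (ℕ × ℕ)) :
    Summable fun n : ℕ => if 4 ^ n ≤ cnt n X then (1 / 2 : ℝ) ^ n else 0 := by
  refine Summable.of_nonneg_of_le (fun n => ?_) (fun n => ?_) summable_geometric_two
  · split_ifs <;> positivity
  · split_ifs
    · exact le_rfl
    · positivity

theorem cnt_mono {X Y : Set (ℕ × ℕ)} (h : X ⊆ Y) (n : ℕ) : cnt n X ≤ cnt n Y := by
  classical
  refine card_le_card ?_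
  intro i hi
  rw [mem_filter] at hi ⊢
  exact ⟨hi.1, h hi.2⟩

theorem phi_mono {X Y : Set (ℕ × ℕ)} (h : X ⊆ Y) : phi X ≤ phi Y := by
  refine (summable_phi X).tsum_le_tsum (fun n => ?_) (summable_phi Y)
  by_cases h1 : 4 ^ n ≤ cnt n X
  · rw [if_pos h1, if_pos (h1.trans (cnt_mono h n))]
  · rw [if_neg h1]; split_ifs <;> positivity

/-- the copy of a set in the `n`-th block -/
def cp (n : ℕ) (S : Finset (Fin (2 * 4 ^ n))) : Set (ℕ × ℕ) := {p | p.1 = n ∧ ∃ i ∈ S, (i : ℕ) = p.2}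

theorem cnt_cp_self (n : ℕ) (S : Finset (Fin (2 * 4 ^ n))) : cnt n (cp n S) = S.card := by
  classical
  unfold cnt
  rw [← card_map Fin.valEmbedding]
  congr 1
  ext i
  simp only [mem_filter, mem_range, cp, Set.mem_ofPred_eq, true_and, mem_map,
    Fin.valEmbedding_apply]
  constructor
  · rintro ⟨-, h⟩; exact h
  · rintro ⟨j, hj, rfl⟩; exact ⟨j.isLt, j, hj, rfl⟩

theorem cnt_cp_ne {n k : ℕ} (hk : k ≠ n) (S : Finset (Fin (2 * 4 ^ n))) : cnt k (cp n S) = 0 := by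
  classical
  unfold cnt
  rw [card_eq_zero, filter_eq_empty_iff]
  rintro i - ⟨h, -⟩
  exact hk h

theorem phi_cp (n : ℕ) (S : Finset (Fin (2 * 4 ^ n))) :
    phi (cp n S) = if 4 ^ n ≤ S.card then (1 / 2 : ℝ) ^ n else 0 := by
  unfold phi
  rw [tsum_eq_single n]
  · rw [cnt_cp_self]
  · intro k hk
    rw [cnt_cp_ne hk, if_neg]
    have : 0 < 4 ^ k := by positivity
    omega

theorem cp_inter (n : ℕ) (S T : Finset (Fin (2 * 4 ^ n))) : cp n (S ∩ T) = cp n S ∩ cp n T := by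
  ext ⟨a, b⟩
  simp only [cp, Set.mem_ofPred_eq, Set.mem_inter_iff, mem_inter]
  constructor
  · rintro ⟨h1, i, ⟨h2, h3⟩, h4⟩
    exact ⟨⟨h1, i, h2, h4⟩, h1, i, h3, h4⟩
  · rintro ⟨⟨h1, i, h2, h4⟩, -, j, h3, h5⟩
    have : i = j := Fin.ext (h4.trans h5.symm)
    subst this
    exact ⟨h1, i, ⟨h2, h3⟩, h4⟩

theorem cp_union (n : ℕ) (S T : Finset (Fin (2 * 4 ^ n))) : cp n (S ∪ T) = cp n S ∪ cp n T := by
  ext ⟨a, b⟩
  simp only [cp, Set.mem_ofPred_eq, Set.mem_union, mem_union]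
  constructor
  · rintro ⟨h1, i, h2 | h2, h4⟩
    · exact Or.inl ⟨h1, i, h2, h4⟩
    · exact Or.inr ⟨h1, i, h2, h4⟩
  · rintro (⟨h1, i, h2, h4⟩ | ⟨h1, i, h2, h4⟩)
    · exact ⟨h1, i, Or.inl h2, h4⟩
    · exact ⟨h1, i, Or.inr h2, h4⟩

/-- **Theorem.** There is a set algebra (all subsets of a countable set) and an increasing set
function on it which is not a difference of two bounded submodular set functions. -/
theorem result : ∃ (J : Type) (B : Set (Set J)) (φ : Set J → ℝ),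
    Countable J ∧ MeasureTheory.IsSetAlgebra B ∧ IncreasingOn B φ ∧
    ¬ ∃ ψ₁ ψ₂ : Set J → ℝ, SubmodularOn B ψ₁ ∧ BoundedOn B ψ₁ ∧ SubmodularOn B ψ₂ ∧
      BoundedOn B ψ₂ ∧ ∀ X ∈ B, φ X = ψ₁ X - ψ₂ X := by
  refine ⟨ℕ × ℕ, Set.univ, phi, inferInstance, ⟨trivial, fun _ _ => trivial,
    fun _ _ _ _ => trivial⟩, fun X _ Y _ h => phi_mono h, ?_⟩
  rintro ⟨ψ₁, ψ₂, h1, -, h2, ⟨b, hb⟩, h3⟩
  obtain ⟨n, hn⟩ := pow_unbounded_of_one_lt (4 * b + 1) (one_lt_two : (1 : ℝ) < 2)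
  have hb0 : 0 ≤ b := (abs_nonneg _).trans (hb ∅ trivial)
  have hn1 : 1 ≤ n := by
    by_contra h
    have : n = 0 := by omega
    subst this
    norm_num at hn
    linarith
  have hm : 2 ≤ 4 ^ n := by
    calc 2 ≤ 4 ^ 1 := by norm_num
      _ ≤ 4 ^ n := Nat.pow_le_pow_right (by norm_num) hn1
  have key := threshold_bound (4 ^ n) hm ((1 / 2 : ℝ) ^ n) b (by positivity)
    (fun S => ψ₁ (cp n S)) (fun S => ψ₂ (cp n S))
    (fun X Y => by rw [cp_inter, cp_union]; exact h1 _ trivial _ trivial)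
    (fun X Y => by rw [cp_inter, cp_union]; exact h2 _ trivial _ trivial)
    (fun X => hb _ trivial)
    (fun X => by rw [← h3 _ trivial, phi_cp])
  have h4 : ((4 ^ n : ℕ) : ℝ) * (1 / 2 : ℝ) ^ n = 2 ^ n := by
    push_cast
    rw [← mul_pow]; norm_num
  have h5 : ((1 : ℝ) / 2) ^ n ≤ 1 := pow_le_one₀ (by norm_num) (by norm_num)
  rw [sub_mul, h4, one_mul] at key
  linarith

end Pool.Agent.Results.MP_2db6a9_co.ThresholdTower
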